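import Mathlib
import Pool.Agent.H71.Hex.Defs
import Pool.Agent.H71.Hex.One

/-!
Every positive integer is the number of arms of a spiral tiling by marked regular hexagons, and one
and the same single arc marks the hexagon for all numbers of arms.
-/

namespace Pool.Agent.Results.MP_f80956_co.EveryArmNumber

open H71Hex

theorem result : ∃ A : Set ℂ, IsMarking hexagon {A} ∧ ∀ n : ℕ, 0 < n →
    ∃ σ : ℤ × ℤ → ℂ ≃ᵢ ℂ, IsTiling hexagon σ ∧ IsArmed n (markedSet σ {A}) := by
  refine ⟨arcS, ⟨Set.finite_singleton _, Set.singleton_nonempty _, ?_⟩, fun n hn => every hn⟩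
  intro a ha
  rw [Set.mem_singleton_iff] at ha
  subst ha
  exact ⟨isArc_arcS, arcS_sub⟩

end Pool.Agent.Results.MP_f80956_co.EveryArmNumber
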